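import Mathlib
import Pool.Agent.H2.HhB

set_option autoImplicit false
open Topology

namespace Pool.Agent.Results.MP_1b62a1_an.Hered

/-- On every countable locally convex direct sum of separable infinite-dimensional Banach spaces
there is a hereditarily hypercyclic operator. -/
theorem result (𝕜 : Type) [RCLike 𝕜] (X : ℕ → Type) [∀ n, NormedAddCommGroup (X n)]
    [∀ n, NormedSpace 𝕜 (X n)] [∀ n, NormedSpace ℝ (X n)] [∀ n, IsScalarTower ℝ 𝕜 (X n)]
    [∀ n, CompleteSpace (X n)] [∀ n, TopologicalSpace.SeparableSpace (X n)]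
    (hX : ∀ n, ¬ FiniteDimensional 𝕜 (X n)) :
    ∃ τ : TopologicalSpace (Π₀ n, X n),
      IsLeast {t : TopologicalSpace (Π₀ n, X n) | IsTopologicalAddGroup (Π₀ n, X n) ∧
        ContinuousSMul 𝕜 (Π₀ n, X n) ∧ LocallyConvexSpace ℝ (Π₀ n, X n) ∧
        ∀ n, IsInducing (DFinsupp.single n : X n → Π₀ n, X n)} τ ∧
      ∃ T : (Π₀ n, X n) →L[𝕜] (Π₀ n, X n), ∀ B : Set ℕ, B.Infinite →
        ∃ x, Dense ((fun n => (T ^ n) x) '' B) := by
  obtain ⟨A, D, h⟩ := Pool.Agent.H2.HhB.orbit hX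
  let C : Set (TopologicalSpace (Π₀ n, X n)) := {t | IsTopologicalAddGroup (Π₀ n, X n) ∧
        ContinuousSMul 𝕜 (Π₀ n, X n) ∧ LocallyConvexSpace ℝ (Π₀ n, X n) ∧
        ∀ n, Continuous (DFinsupp.single n : X n → Π₀ n, X n)}
  let τ : TopologicalSpace (Π₀ n, X n) := sInf C
  have i1 : IsTopologicalAddGroup (Π₀ n, X n) := topologicalAddGroup_sInf fun t ht => ht.1
  have i2 : ContinuousSMul 𝕜 (Π₀ n, X n) := continuousSMul_sInf fun t ht => ht.2.1
  have i3 : LocallyConvexSpace ℝ (Π₀ n, X n) := LocallyConvexSpace.sInf fun t ht => ht.2.2.1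
  have i4 : ∀ n, Continuous (DFinsupp.single n : X n → Π₀ n, X n) := fun n =>
    continuous_sInf_rng.mpr fun t ht => ht.2.2.2 n
  have key : ∀ (Z : Type) [AddCommGroup Z] [Module 𝕜 Z] [Module ℝ Z] [IsScalarTower ℝ 𝕜 Z]
      [TopologicalSpace Z] [IsTopologicalAddGroup Z] [ContinuousSMul 𝕜 Z] [LocallyConvexSpace ℝ Z]
      (L : (Π₀ n, X n) →ₗ[𝕜] Z), (∀ n, Continuous fun x : X n => L (DFinsupp.single n x)) →
      Continuous L := by
    intro Z _ _ _ _ tZ _ _ _ L hL
    refine continuous_iff_le_induced.mpr (sInf_le ?_)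
    exact ⟨topologicalAddGroup_induced L, continuousSMul_induced L,
      LocallyConvexSpace.induced (L.restrictScalars ℝ), fun n => continuous_induced_rng.mpr (hL n)⟩
  have i5 : ∀ n, IsInducing (DFinsupp.single n : X n → Π₀ n, X n) := by
    intro n
    have hp : Continuous (DFinsupp.lapply (R := 𝕜) (M := X) n) := by
      refine key (X n) _ fun m => ?_
      by_cases hm : m = n
      · subst hm
        simpa using continuous_id'
      · simpa [DFinsupp.single_eq_of_ne (Ne.symm hm)] using continuous_const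
    have hl : Function.LeftInverse (DFinsupp.lapply (R := 𝕜) (M := X) n)
        (DFinsupp.single n : X n → Π₀ n, X n) := fun x => by simp
    exact (hl.isEmbedding hp (i4 n)).isInducing
  have hT : Continuous (1 + Pool.Agent.H2.HhB.SS A D : Module.End 𝕜 (Π₀ n, X n)) := by
    refine key _ _ fun n => ?_
    simp only [LinearMap.add_apply, Module.End.one_apply]
    refine (i4 n).add ?_
    cases n with
    | zero =>
      simp only [Pool.Agent.H2.HhB.SS0]
      exact ((i4 1).comp (A 0).continuous).add ((i4 0).comp D.continuous)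
    | succ n =>
      simp only [Pool.Agent.H2.HhB.SS1]
      exact (i4 (n + 2)).comp (A (n + 1)).continuous
  refine ⟨τ, ⟨⟨i1, i2, i3, i5⟩, fun t ht => sInf_le ⟨ht.1, ht.2.1, ht.2.2.1, fun n =>
    @IsInducing.continuous _ _ _ t _ (ht.2.2.2 n)⟩⟩, ⟨_, hT⟩, fun B hB => ?_⟩
  obtain ⟨x, hx⟩ := h i4 B hB
  refine ⟨x, ?_⟩
  have : (fun n => ((⟨_, hT⟩ : (Π₀ n, X n) →L[𝕜] (Π₀ n, X n)) ^ n) x) =
      fun n => ((1 + Pool.Agent.H2.HhB.SS A D) ^ n) x := by
    funext n
    rw [ContinuousLinearMap.coe_pow', Module.End.pow_apply]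
    rfl
  rw [this]
  exact hx

end Pool.Agent.Results.MP_1b62a1_an.Hered
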